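import Pool.Agent.Helper2.NNQ.Stm

set_option autoImplicit false

/-!
# The lower bound of the measure (part LP)
-/

open MeasureTheory Filter Topology Finset
open scoped Real

namespace Pool.Agent.Helper44.NNQ

open Pool.Agent.Helper2.NNQ

theorem reg_mono {g : ℝ → ℝ} {σ a b c d : ℝ} (h : Reg g σ a b) (h1 : a ≤ c) (h2 : d ≤ b) :
    Reg g σ c d :=
  ⟨h.pos, fun x y hx hxy hy => h.lo x y (h1.trans hx) hxy (hy.trans h2),
    fun x y hx hxy hy => h.hi x y (h1.trans hx) hxy (hy.trans h2)⟩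

theorem reg_cont {g : ℝ → ℝ} {σ a b : ℝ} (h : Reg g σ a b) : ContinuousOn g (Set.Icc a b) := by
  have hl : LipschitzOnWith (Real.toNNReal (2 * σ)) g (Set.Icc a b) := by
    refine LipschitzOnWith.of_dist_le_mul fun x hx y hy => ?_
    rw [Real.coe_toNNReal _ (by linarith [h.pos]), Real.dist_eq, Real.dist_eq]
    rcases le_total x y with hxy | hxy
    · have h1 := h.lo x y hx.1 hxy hy.2
      have h2 := h.hi x y hx.1 hxy hy.2
      have h3 : 0 ≤ σ * (y - x) := mul_nonneg h.pos.le (by linarith)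
      rw [abs_sub_comm, abs_of_nonneg (by linarith), abs_sub_comm, abs_of_nonneg (by linarith)]
      exact h2
    · have h1 := h.lo y x hy.1 hxy hx.2
      have h2 := h.hi y x hy.1 hxy hx.2
      have h3 : 0 ≤ σ * (x - y) := mul_nonneg h.pos.le (by linarith)
      rw [abs_of_nonneg (by linarith), abs_of_nonneg (by linarith)]
      exact h2
  exact hl.continuousOn

/-- one value of the integer part -/
theorem cell {g : ℝ → ℝ} {σ a b : ℝ} (h : Reg g σ a b) (hab : a ≤ b) (v : ℤ)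
    (h1 : Real.exp (g a) ≤ v) (h2 : (v : ℝ) + 1 ≤ Real.exp (g b)) :
    ∃ pq : ℝ × ℝ, a ≤ pq.1 ∧ pq.1 ≤ pq.2 ∧ pq.2 ≤ b ∧
      (∀ x ∈ Set.Ico pq.1 pq.2, ⌊Real.exp (g x)⌋ = v) ∧
      1 / (2 * σ * ((v : ℝ) + 1)) ≤ pq.2 - pq.1 := by
  have hv : (0 : ℝ) < v := lt_of_lt_of_le (Real.exp_pos _) h1
  have hσ := h.pos
  have hc := intermediate_value_Icc hab (reg_cont h)
  obtain ⟨p, hp, hgp⟩ := hc (show Real.log v ∈ Set.Icc (g a) (g b) from
    ⟨(Real.le_log_iff_exp_le hv).2 h1, (Real.log_le_iff_le_exp hv).2 (by linarith)⟩)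
  obtain ⟨q, hq, hgq⟩ := hc (show Real.log ((v : ℝ) + 1) ∈ Set.Icc (g a) (g b) from
    ⟨(Real.le_log_iff_exp_le (by linarith)).2 (by linarith),
      (Real.log_le_iff_le_exp (by linarith)).2 h2⟩)
  have hlog : 1 / ((v : ℝ) + 1) ≤ Real.log ((v : ℝ) + 1) - Real.log v := by
    rw [← Real.log_div (by linarith) hv.ne']
    have := Real.one_sub_inv_le_log_of_pos (x := ((v : ℝ) + 1) / v) (by positivity)
    refine le_trans (le_of_eq ?_) this
    field_simp
    ring
  have hlpos : (0 : ℝ) < 1 / ((v : ℝ) + 1) := by positivity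
  have hpq : p ≤ q := by
    by_contra hcon
    push Not at hcon
    have := h.lo q p hq.1 hcon.le hp.2
    have h3 : 0 ≤ σ * (p - q) := mul_nonneg hσ.le (by linarith)
    linarith
  refine ⟨(p, q), hp.1, hpq, hq.2, ?_, ?_⟩
  · rintro x ⟨hx1, hx2⟩
    have e1 := h.lo p x hp.1 hx1 (hx2.le.trans hq.2)
    have e2 := h.lo x q (hp.1.trans hx1) hx2.le hq.2
    have e3 : 0 ≤ σ * (x - p) := mul_nonneg hσ.le (by simpa using hx1)
    have e4 : 0 < σ * (q - x) := mul_pos hσ (by simpa using hx2)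
    rw [Int.floor_eq_iff]
    constructor
    · rw [← Real.log_le_iff_le_exp hv]
      linarith
    · rw [← Real.lt_log_iff_exp_lt (by linarith)]
      linarith
  · have e1 := h.hi p q hp.1 hpq hq.2
    have e2 : 1 / ((v : ℝ) + 1) ≤ 2 * σ * (q - p) := by linarith
    have e3 : 1 / (2 * σ * ((v : ℝ) + 1)) = 1 / ((v : ℝ) + 1) / (2 * σ) := by
      field_simp
    show 1 / (2 * σ * ((v : ℝ) + 1)) ≤ q - p
    rw [e3, div_le_iff₀ (by positivity)]
    linarith

theorem vol_fin (S : Set ℝ) (a b : ℝ) : volume (S ∩ Set.Icc a b) ≠ ⊤ :=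
  ((measure_mono Set.inter_subset_right).trans_lt measure_Icc_lt_top).ne

/-- short intervals -/
theorem short (hP : S_PNTL) (τ : ℝ) (k : ℤ) (hτ : 0 < τ) : ∃ Y₀ : ℝ, 0 < Y₀ ∧
    ∀ (g : ℝ → ℝ) (σ a b : ℝ), Reg g σ a b → a < b → τ ≤ σ * (b - a) → σ * (b - a) ≤ 1 →
    Y₀ ≤ g a → 1 / 12 * (b - a) / g b ≤ volume.real (PP g k ∩ Set.Icc a b) := by
  obtain ⟨Y₁, hY₁⟩ := hP τ k hτ
  refine ⟨max 1 (Real.log (max 1 Y₁)), by positivity, ?_⟩
  intro g σ a b hR hab h1 h2 hga
  have hσ := hR.pos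
  have hga1 : 1 ≤ g a := (le_max_left _ _).trans hga
  have hYY : Y₁ ≤ Real.exp (g a) := by
    have : Real.log (max 1 Y₁) ≤ g a := (le_max_right _ _).trans hga
    rw [Real.log_le_iff_le_exp (by positivity)] at this
    exact (le_max_right _ _).trans this
  set Y : ℝ := Real.exp (g a) with hY
  have hYpos : 0 < Y := Real.exp_pos _
  set lam : ℝ := Real.exp (σ * (b - a)) with hlam
  have hl1 : σ * (b - a) + 1 ≤ lam := Real.add_one_le_exp _
  have hl3 : lam ≤ 3 := by
    have := Real.exp_one_lt_d9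
    have h5 : lam ≤ Real.exp 1 := Real.exp_le_exp.2 h2
    linarith
  have hlogY : Real.log Y = g a := Real.log_exp _
  have hgab : σ * (b - a) ≤ g b - g a := hR.lo a b le_rfl hab.le le_rfl
  have hYb : lam * Y ≤ Real.exp (g b) := by
    rw [hlam, hY, ← Real.exp_add]
    exact Real.exp_le_exp.2 (by linarith)
  have hcard := hY₁ Y lam hYY (by linarith) hl3
  set V : Set ℤ := {v : ℤ | Y ≤ v ∧ (v : ℝ) + 1 ≤ lam * Y ∧ (v + k).toNat.Prime} with hV
  have hfin : V.Finite := by
    refine (Set.finite_Icc ⌊Y⌋ ⌊lam * Y⌋).subset ?_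
    rintro v ⟨hv1, hv2, -⟩
    refine ⟨?_, ?_⟩
    · exact Int.cast_le.1 ((Int.floor_le Y).trans hv1)
    · exact Int.le_floor.2 (by linarith)
  have hcell : ∀ v ∈ V, ∃ pq : ℝ × ℝ, a ≤ pq.1 ∧ pq.1 ≤ pq.2 ∧ pq.2 ≤ b ∧
      (∀ x ∈ Set.Ico pq.1 pq.2, ⌊Real.exp (g x)⌋ = v) ∧
      1 / (2 * σ * ((v : ℝ) + 1)) ≤ pq.2 - pq.1 := fun v hv =>
    cell hR hab.le v hv.1 (hv.2.1.trans hYb)
  choose! pq hpq using hcell
  have hdis : Set.PairwiseDisjoint (hfin.toFinset : Set ℤ)
      (fun v => Set.Ico (pq v).1 (pq v).2) := by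
    intro v hv w hw hvw
    rw [Finset.mem_coe, Set.Finite.mem_toFinset] at hv hw
    rw [Function.onFun, Set.disjoint_left]
    intro x hx hx'
    exact hvw (((hpq v hv).2.2.2.1 x hx).symm.trans ((hpq w hw).2.2.2.1 x hx'))
  have hsub : (⋃ v ∈ hfin.toFinset, Set.Ico (pq v).1 (pq v).2) ⊆ PP g k ∩ Set.Icc a b := by
    intro x hx
    simp only [Set.mem_iUnion, Set.Finite.mem_toFinset] at hx
    obtain ⟨v, hv, hx⟩ := hx
    obtain ⟨q1, q2, q3, q4, -⟩ := hpq v hv
    refine ⟨?_, q1.trans hx.1, hx.2.le.trans q3⟩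
    show (⌊Real.exp (g x)⌋ + k).toNat.Prime
    rw [q4 x hx]
    exact hv.2.2
  have hvol : ∑ v ∈ hfin.toFinset, ((pq v).2 - (pq v).1) ≤ volume.real (PP g k ∩ Set.Icc a b) := by
    refine le_trans (le_of_eq ?_) (measureReal_mono hsub (vol_fin _ _ _))
    rw [measureReal_biUnion_finset hdis (fun v _ => measurableSet_Ico)
      (fun v _ => measure_Ico_lt_top.ne)]
    refine Finset.sum_congr rfl fun v hv => ?_
    rw [Set.Finite.mem_toFinset] at hv
    rw [Real.volume_real_Ico_of_le (hpq v hv).2.1]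
  have hsum : (V.ncard : ℝ) * (1 / (2 * σ * (lam * Y))) ≤
      ∑ v ∈ hfin.toFinset, ((pq v).2 - (pq v).1) := by
    rw [Set.ncard_eq_toFinset_card V hfin, ← nsmul_eq_mul, ← Finset.sum_const]
    refine Finset.sum_le_sum fun v hv => ?_
    rw [Set.Finite.mem_toFinset] at hv
    refine le_trans ?_ (hpq v hv).2.2.2.2
    have hv0 : (0 : ℝ) < v := hYpos.trans_le hv.1
    exact one_div_le_one_div_of_le (by positivity)
      (mul_le_mul_of_nonneg_left hv.2.1 (by positivity))
  refine le_trans ?_ (hsum.trans hvol)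
  have hgb : 0 < g b := by
    have : 0 ≤ σ * (b - a) := mul_nonneg hσ.le (by linarith)
    linarith
  have hga0 : 0 < g a := by linarith
  rw [hlogY] at hcard
  have hlam0 : 0 < lam := Real.exp_pos _
  calc 1 / 12 * (b - a) / g b ≤ 1 / 12 * (b - a) / g a := by
        refine div_le_div_of_nonneg_left (by nlinarith) hga0 ?_
        have : 0 ≤ σ * (b - a) := mul_nonneg hσ.le (by linarith)
        linarith
    _ ≤ 1 / 2 * (lam - 1) * Y / g a * (1 / (2 * σ * (lam * Y))) := by
        have e1 : 1 / 2 * (lam - 1) * Y / g a * (1 / (2 * σ * (lam * Y))) =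
            (lam - 1) / (4 * σ * lam) / g a := by
          field_simp
          ring
        rw [e1]
        refine div_le_div_of_nonneg_right ?_ hga0.le
        rw [le_div_iff₀ (by positivity)]
        have e2 : (b - a) * σ * lam ≤ (b - a) * σ * 3 :=
          mul_le_mul_of_nonneg_left hl3 (mul_nonneg (by linarith) hσ.le)
        nlinarith
    _ ≤ _ := mul_le_mul_of_nonneg_right hcard (by positivity)

theorem split (S : Set ℝ) {a b c : ℝ} (hac : a ≤ c) (hcb : c ≤ b) :
    volume.real (S ∩ Set.Icc a c) + volume.real (S ∩ Set.Icc c b) ≤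
      volume.real (S ∩ Set.Icc a b) := by
  have h1 := measureReal_inter_add_sdiff (μ := volume) (s := S ∩ Set.Icc a b)
    (measurableSet_Iic (a := c)) (vol_fin S a b)
  rw [← h1]
  refine add_le_add ?_ ?_
  · refine measureReal_mono ?_ ?_
    · rintro x ⟨hx, hx1, hx2⟩
      exact ⟨⟨hx, hx1, hx2.trans hcb⟩, hx2⟩
    · exact ((measure_mono (Set.inter_subset_left.trans Set.inter_subset_right)).trans_lt
        (measure_Icc_lt_top (a := a) (b := b))).ne
  · have h2 : S ∩ Set.Icc c b ⊆ ((S ∩ Set.Icc a b) \ Set.Iic c) ∪ {c} := by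
      rintro x ⟨hx, hx1, hx2⟩
      rcases hx1.eq_or_lt with h | h
      · exact Or.inr h.symm
      · exact Or.inl ⟨⟨hx, hac.trans hx1, hx2⟩, fun h3 => absurd h (not_lt.2 h3)⟩
    have h3 : volume ((S ∩ Set.Icc a b) \ Set.Iic c) ≠ ⊤ :=
      ((measure_mono (Set.sdiff_subset.trans Set.inter_subset_right)).trans_lt
        (measure_Icc_lt_top (a := a) (b := b))).ne
    have h4 : volume (S ∩ Set.Icc c b) ≤ volume ((S ∩ Set.Icc a b) \ Set.Iic c) := by
      refine (measure_mono h2).trans ((measure_union_le _ _).trans ?_)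
      rw [Real.volume_singleton, add_zero]
    exact ENNReal.toReal_mono h3 h4

theorem t_LP (hP : S_PNTL) : S_LP := by
  refine ⟨1 / 12, by norm_num, fun τ k hτ => ?_⟩
  obtain ⟨Y₀, hY₀, hS⟩ := short hP (min τ (1 / 2)) k (by positivity)
  refine ⟨Y₀, ?_⟩
  have key : ∀ j : ℕ, ∀ (g : ℝ → ℝ) (σ a b : ℝ), Reg g σ a b → a < b →
      min τ (1 / 2) ≤ σ * (b - a) → σ * (b - a) ≤ 2 ^ j → Y₀ ≤ g a →
      1 / 12 * (b - a) / g b ≤ volume.real (PP g k ∩ Set.Icc a b) := by
    intro j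
    induction j with
    | zero =>
      intro g σ a b h1 h2 h3 h4 h5
      exact hS g σ a b h1 h2 h3 (by simpa using h4) h5
    | succ j ih =>
      intro g σ a b h1 h2 h3 h4 h5
      by_cases hj : σ * (b - a) ≤ 2 ^ j
      · exact ih g σ a b h1 h2 h3 hj h5
      · push Not at hj
        have hσ := h1.pos
        have hj1 : (1 : ℝ) ≤ 2 ^ j := one_le_pow₀ (by norm_num)
        set c : ℝ := (a + b) / 2 with hc
        have hac : a < c := by rw [hc]; linarith
        have hcb : c < b := by rw [hc]; linarith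
        have e1 : c - a = (b - a) / 2 := by rw [hc]; ring
        have e2 : b - c = (b - a) / 2 := by rw [hc]; ring
        have e3 : σ * ((b - a) / 2) = σ * (b - a) / 2 := by ring
        have hmin : min τ (1 / 2) ≤ 1 / 2 := min_le_right _ _
        have hp : (2 : ℝ) ^ (j + 1) = 2 * 2 ^ j := by ring
        have m1 : 0 ≤ σ * (c - a) := mul_nonneg hσ.le (by linarith)
        have m2 : 0 ≤ σ * (b - c) := mul_nonneg hσ.le (by linarith)
        have g1 := h1.lo a c le_rfl hac.le hcb.le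
        have g2 := h1.lo c b hac.le hcb.le le_rfl
        have k1 := ih g σ a c (reg_mono h1 le_rfl hcb.le) hac (by rw [e1, e3]; linarith)
          (by rw [e1, e3]; linarith) h5
        have k2 := ih g σ c b (reg_mono h1 hac.le le_rfl) hcb (by rw [e2, e3]; linarith)
          (by rw [e2, e3]; linarith) (by linarith)
        refine le_trans ?_ (split (PP g k) hac.le hcb.le)
        have hgc : 0 < g c := by linarith
        have k3 : 1 / 12 * (c - a) / g b ≤ 1 / 12 * (c - a) / g c :=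
          div_le_div_of_nonneg_left (by nlinarith) hgc (by linarith)
        have k4 : 1 / 12 * (b - a) / g b = 1 / 12 * (c - a) / g b + 1 / 12 * (b - c) / g b := by
          rw [← add_div]
          congr 1
          ring
        linarith
  intro g σ a b h1 h2 h3 h4
  obtain ⟨j, hj⟩ := pow_unbounded_of_one_lt (σ * (b - a)) (by norm_num : (1 : ℝ) < 2)
  exact key j g σ a b h1 h2 ((min_le_left _ _).trans h3) hj.le h4

end Pool.Agent.Helper44.NNQ
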