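import Pool.Agent.Helper2.NNQ.FarStm

set_option autoImplicit false

/-!
# The Hausdorff dimension of a homogeneous Cantor set (part CAN)
-/

open MeasureTheory Filter Topology Finset

namespace Pool.Agent.Helper44.NNF

open Pool.Agent.Helper2.NNF

variable (m : ℕ → ℕ)

/-- the remainders -/
noncomputable def yy (y : ℝ) : ℕ → ℝ
  | 0 => y
  | j + 1 => Int.fract ((m j : ℝ) * yy y j)

/-- the digits -/
noncomputable def dd (y : ℝ) (j : ℕ) : ℕ := ⌊(m j : ℝ) * yy m y j⌋₊

theorem yy_mem {y : ℝ} (hy : y ∈ Set.Ico (0 : ℝ) 1) (j : ℕ) : yy m y j ∈ Set.Ico (0 : ℝ) 1 := by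
  cases j with
  | zero => exact hy
  | succ j => exact ⟨Int.fract_nonneg _, Int.fract_lt_one _⟩

theorem yy_eq {y : ℝ} (hy : y ∈ Set.Ico (0 : ℝ) 1) (j : ℕ) :
    (m j : ℝ) * yy m y j = dd m y j + yy m y (j + 1) := by
  have h0 : 0 ≤ (m j : ℝ) * yy m y j := mul_nonneg (Nat.cast_nonneg _) (yy_mem m hy j).1
  show (m j : ℝ) * yy m y j = (⌊(m j : ℝ) * yy m y j⌋₊ : ℝ) + Int.fract ((m j : ℝ) * yy m y j)
  rw [natCast_floor_eq_intCast_floor h0]
  exact (Int.floor_add_fract _).symm

theorem dd_lt {y : ℝ} (hy : y ∈ Set.Ico (0 : ℝ) 1) (hm : ∀ j, 2 ≤ m j) (j : ℕ) :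
    dd m y j < m j := by
  have h0 : 0 ≤ (m j : ℝ) * yy m y j := mul_nonneg (Nat.cast_nonneg _) (yy_mem m hy j).1
  have hmj : (0 : ℝ) < m j := by
    have := hm j
    have : 0 < m j := by omega
    exact_mod_cast this
  unfold dd
  rw [Nat.floor_lt h0]
  have := (yy_mem m hy j).2
  nlinarith

/-- equal digits -/
theorem diff {y y' : ℝ} (hy : y ∈ Set.Ico (0 : ℝ) 1) (hy' : y' ∈ Set.Ico (0 : ℝ) 1)
    (j : ℕ) (h : ∀ l < j, dd m y l = dd m y' l) :
    (∏ l ∈ range j, (m l : ℝ)) * (y - y') = yy m y j - yy m y' j := by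
  induction j with
  | zero => simp [yy]
  | succ j ih =>
    have h1 := ih fun l hl => h l (by omega)
    have h2 := yy_eq m hy j
    have h3 := yy_eq m hy' j
    have h4 := h j (by omega)
    rw [prod_range_succ]
    rw [h4] at h2
    linear_combination (m j : ℝ) * h1 + h2 - h3

variable {m}

theorem prod_pos' (hm : ∀ j, 2 ≤ m j) (j : ℕ) : (2 : ℝ) ^ j ≤ ∏ l ∈ range j, (m l : ℝ) := by
  induction j with
  | zero => simp
  | succ j ih =>
    rw [prod_range_succ, pow_succ]
    have h2 : (2 : ℝ) ≤ m j := by exact_mod_cast hm j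
    exact mul_le_mul ih h2 (by norm_num) (le_trans (by positivity) ih)

theorem exists_diff (hm : ∀ j, 2 ≤ m j) {y y' : ℝ} (hy : y ∈ Set.Ico (0 : ℝ) 1)
    (hy' : y' ∈ Set.Ico (0 : ℝ) 1) (hne : y ≠ y') : ∃ j, dd m y j ≠ dd m y' j := by
  by_contra hcon
  push Not at hcon
  have hpos : 0 < |y - y'| := abs_pos.2 (sub_ne_zero.2 hne)
  obtain ⟨j, hj⟩ := pow_unbounded_of_one_lt (1 / |y - y'|) (by norm_num : (1 : ℝ) < 2)
  have h1 := diff m hy hy' j fun l _ => hcon l
  have h2 := prod_pos' hm j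
  have a1 := yy_mem m hy j
  have a2 := yy_mem m hy' j
  have h3 : |yy m y j - yy m y' j| < 1 := by
    rw [abs_lt]
    constructor <;> linarith [a1.1, a1.2, a2.1, a2.2]
  rw [← h1, abs_mul, abs_of_nonneg (le_trans (by positivity) h2)] at h3
  rw [div_lt_iff₀ hpos] at hj
  have h4 := mul_le_mul_of_nonneg_right h2 hpos.le
  linarith

/-- the words -/
noncomputable def ww (T : ℕ → ℤ → ℕ → ℤ) (w₀ : ℤ) (d : ℕ → ℕ) : ℕ → ℤ
  | 0 => w₀
  | j + 1 => T j (ww T w₀ d j) (d j)

theorem ww_congr (T : ℕ → ℤ → ℕ → ℤ) (w₀ : ℤ) (d d' : ℕ → ℕ) (j : ℕ) (h : ∀ l < j, d l = d' l) :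
    ww T w₀ d j = ww T w₀ d' j := by
  induction j with
  | zero => rfl
  | succ j ih =>
    show T j (ww T w₀ d j) (d j) = T j (ww T w₀ d' j) (d' j)
    rw [ih fun l hl => h l (by omega), h j (by omega)]

theorem t_CAN : S_CAN := by
  classical
  intro s hs0 hs1 m ε W Ce T w₀ c hm hε hc hW0 hCe hT hsep hcon
  -- the words are admissible
  have hW : ∀ y ∈ Set.Ico (0 : ℝ) 1, ∀ j, W j (ww T w₀ (dd m y) j) := by
    intro y hy j
    induction j with
    | zero => exact hW0
    | succ j ih => exact (hT j _ _ ih (dd_lt m hy hm j)).1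
  have hpt : ∀ y ∈ Set.Ico (0 : ℝ) 1, ∃ x : ℝ, ∀ j, x ∈ Ce j (ww T w₀ (dd m y) j) := by
    intro y hy
    have h := IsCompact.nonempty_iInter_of_sequence_nonempty_isCompact_isClosed
      (fun j => Ce j (ww T w₀ (dd m y) j))
      (fun j => (hT j _ _ (hW y hy j) (dd_lt m hy hm j)).2)
      (fun j => (hCe j _ (hW y hy j)).1) (hCe 0 _ (hW y hy 0)).2
      (fun j => (hCe j _ (hW y hy j)).2.isClosed)
    obtain ⟨x, hx⟩ := h
    exact ⟨x, fun j => Set.mem_iInter.1 hx j⟩
  choose! X hX using hpt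
  -- the main inequality
  have key : ∀ y ∈ Set.Ico (0 : ℝ) 1, ∀ y' ∈ Set.Ico (0 : ℝ) 1, ∀ j : ℕ,
      (∀ l < j, dd m y l = dd m y' l) → dd m y j < dd m y' j →
      |y - y'| ≤ 2 / c * |X y - X y'| ^ s := by
    intro y hy y' hy' j hj hlt
    set P : ℝ := ∏ l ∈ range j, (m l : ℝ) with hP
    have hP2 := prod_pos' hm j
    have hPpos : 0 < P := lt_of_lt_of_le (by positivity) hP2
    have hmj : (0 : ℝ) < m j := by
      have := hm j
      have : 0 < m j := by omega
      exact_mod_cast this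
    have h1 := diff m hy hy' j hj
    have h2 := yy_eq m hy j
    have h3 := yy_eq m hy' j
    have a1 := yy_mem m hy (j + 1)
    have a2 := yy_mem m hy' (j + 1)
    set k : ℝ := (dd m y' j : ℝ) - dd m y j with hk
    have hk1 : 1 ≤ k := by
      have : (dd m y j : ℝ) + 1 ≤ dd m y' j := by exact_mod_cast hlt
      rw [hk]
      linarith
    have hkm : k ≤ m j := by
      have e1 : (dd m y' j : ℝ) ≤ m j := by exact_mod_cast (dd_lt m hy' hm j).le
      have e2 : (0 : ℝ) ≤ dd m y j := Nat.cast_nonneg _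
      rw [hk]
      linarith
    have h4 : P * (m j * |y - y'|) ≤ 2 * k := by
      have e1 : P * (m j * |y - y'|) = |m j * (P * (y - y'))| := by
        rw [abs_mul, abs_mul, abs_of_pos hPpos, abs_of_pos hmj]
        ring
      rw [e1, h1, mul_sub, h2, h3, abs_le]
      constructor <;> linarith [a1.1, a1.2, a2.1, a2.2]
    have hw := ww_congr T w₀ (dd m y) (dd m y') j hj
    have h5 : k * ε j ≤ |X y - X y'| := by
      have e1 := hX y hy (j + 1)
      have e2 := hX y' hy' (j + 1)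
      have e3 : ww T w₀ (dd m y') (j + 1) = T j (ww T w₀ (dd m y) j) (dd m y' j) := by
        rw [hw]
        rfl
      rw [e3] at e2
      exact hsep j (ww T w₀ (dd m y) j) (dd m y j) (dd m y' j) (hW y hy j) hlt
        (dd_lt m hy' hm j) _ e1 _ e2
    have hεj := hε j
    have h6 : c * (k / m j) ≤ P * |X y - X y'| ^ s := by
      have e0 : k / m j ≤ 1 := (div_le_one hmj).2 hkm
      have e1 : k / m j ≤ (k / m j) ^ s := by
        have := Real.rpow_le_rpow_of_exponent_ge (x := k / m j) (by positivity) e0 hs1.le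
        rwa [Real.rpow_one] at this
      have e2 : (k * ε j) ^ s = (k / m j) ^ s * (m j * ε j) ^ s := by
        rw [← Real.mul_rpow (by positivity) (by positivity)]
        congr 1
        field_simp
      have e3 : (k * ε j) ^ s ≤ |X y - X y'| ^ s :=
        Real.rpow_le_rpow (by positivity) h5 hs0.le
      have e4 := hcon j
      rw [← hP] at e4
      calc c * (k / m j) ≤ (P * (m j * ε j) ^ s) * (k / m j) ^ s :=
            mul_le_mul e4 e1 (by positivity) (by positivity)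
        _ = P * (k * ε j) ^ s := by
            rw [e2]
            ring
        _ ≤ _ := mul_le_mul_of_nonneg_left e3 hPpos.le
    have h7 : c * (P * |y - y'|) ≤ 2 * (P * |X y - X y'| ^ s) := by
      have e1 : P * |y - y'| ≤ 2 * (k / m j) := by
        rw [mul_div_assoc', le_div_iff₀ hmj]
        linarith
      have e2 := mul_le_mul_of_nonneg_left e1 hc.le
      linarith
    have h8 : P * (c * |y - y'|) ≤ P * (2 * |X y - X y'| ^ s) := by linarith
    have h9 := le_of_mul_le_mul_left h8 hPpos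
    rw [div_mul_eq_mul_div, le_div_iff₀ hc]
    linarith
  have main : ∀ y ∈ Set.Ico (0 : ℝ) 1, ∀ y' ∈ Set.Ico (0 : ℝ) 1,
      |y - y'| ≤ 2 / c * |X y - X y'| ^ s := by
    intro y hy y' hy'
    by_cases hne : y = y'
    · rw [hne, sub_self, abs_zero]
      positivity
    · have hex := exists_diff hm hy hy' hne
      have hj := Nat.find_spec hex
      have hl : ∀ l < Nat.find hex, dd m y l = dd m y' l := fun l hl => by
        have := Nat.find_min hex hl
        push Not at this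
        exact this
      rcases lt_or_gt_of_ne hj with h | h
      · exact key y hy y' hy' _ hl h
      · have := key y' hy' y hy _ (fun l hl' => (hl l hl').symm) h
        rw [abs_sub_comm y y', abs_sub_comm (X y) (X y')]
        exact this
  have hinj : Set.InjOn X (Set.Ico 0 1) := by
    intro y hy y' hy' h
    have := main y hy y' hy'
    rw [h, sub_self, abs_zero, Real.zero_rpow hs0.ne', mul_zero] at this
    exact sub_eq_zero.1 (abs_nonpos_iff.1 this)
  have hsub : X '' Set.Ico (0 : ℝ) 1 ⊆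
      {x : ℝ | ∃ w : ℕ → ℤ, w 0 = w₀ ∧ ∀ j, W j (w j) ∧ x ∈ Ce j (w j)} := by
    rintro _ ⟨y, hy, rfl⟩
    exact ⟨ww T w₀ (dd m y), rfl, fun j => ⟨hW y hy j, hX y hy j⟩⟩
  refine le_trans ?_ (dimH_mono hsub)
  set G := Function.invFunOn X (Set.Ico (0 : ℝ) 1) with hG
  have hGl : ∀ p ∈ Set.Ico (0 : ℝ) 1, G (X p) = p := hinj.leftInvOn_invFunOn
  have hhol : HolderOnWith (Real.toNNReal (2 / c)) (Real.toNNReal s) G
      (X '' Set.Ico (0 : ℝ) 1) := by
    rintro _ ⟨p, hp, rfl⟩ _ ⟨q, hq, rfl⟩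
    rw [hGl p hp, hGl q hq, edist_dist, edist_dist, Real.dist_eq, Real.dist_eq,
      Real.coe_toNNReal _ hs0.le]
    refine (ENNReal.ofReal_le_ofReal (main p hp q hq)).trans (le_of_eq ?_)
    rw [ENNReal.ofReal_mul (by positivity), ENNReal.ofReal_rpow_of_nonneg (abs_nonneg _) hs0.le]
    rfl
  have himg : G '' (X '' Set.Ico (0 : ℝ) 1) = Set.Ico (0 : ℝ) 1 := by
    rw [← Set.image_comp]
    ext p
    constructor
    · rintro ⟨q, hq, rfl⟩
      show G (X q) ∈ _
      rw [hGl q hq]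
      exact hq
    · intro hp
      exact ⟨p, hp, hGl p hp⟩
  have h1 := hhol.dimH_image_le (Real.toNNReal_pos.2 hs0)
  rw [himg] at h1
  have h2 : dimH (Set.Ico (0 : ℝ) 1) = 1 := by
    have : (interior (Set.Ico (0 : ℝ) 1)).Nonempty := by
      rw [interior_Ico]
      exact ⟨1 / 2, by norm_num, by norm_num⟩
    exact (Real.dimH_of_nonempty_interior this).trans (by simp)
  rw [h2] at h1
  have h4 : ENNReal.ofReal s ≠ 0 := by
    rw [Ne, ENNReal.ofReal_eq_zero, not_le]
    exact hs0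
  have h3 : (1 : ENNReal) ≤ dimH (X '' Set.Ico (0 : ℝ) 1) / ENNReal.ofReal s := h1
  rw [ENNReal.le_div_iff_mul_le (Or.inl h4) (Or.inl ENNReal.ofReal_ne_top), one_mul] at h3
  exact h3

end Pool.Agent.Helper44.NNF
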